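import Pool.Agent.Helper21_R30.Basic

/-!
Rule 30 from a single black cell: the runs of the center column are at most linear.
-/

set_option autoImplicit false

namespace Pool.Agent.Results.MP_3953f1_lc.CenterRuns

open Pool.Agent.H21R30

/-- In the center column of Rule 30 started from a single black cell, a block of `K` consecutive
ones which begins at time `T ≥ 1` has `K ≤ T`, and a block of `K` consecutive zeros which begins
at time `T ≥ 1` has `K ≤ 3 T - 2`. -/
theorem result (T K : ℕ) (hT : 1 ≤ T) :
    ((∀ t, T ≤ t → t < T + K → center t = true) → K ≤ T) ∧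
    ((∀ t, T ≤ t → t < T + K → center t = false) → K ≤ 3 * T - 2) :=
  ⟨ones T K hT, zeros T K hT⟩

end Pool.Agent.Results.MP_3953f1_lc.CenterRuns
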