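import Pool.Agent.Helper37_R30B.APR
import Pool.Agent.Helper60_R30B.WRD

/-!
Rule 30: an eventually periodic column of the diagram of a row with a leftmost black cell (for
instance of a finite nonzero seed) has no runs of ones and no runs of zeros which are long in
comparison with the rest of the period.
-/

set_option autoImplicit false

namespace Pool.Agent.Results.MP_3953f1_lc.LongRuns

open Pool.Agent.H21R30

/-- Fourteen words of length 8, 10, 11, 12 with long runs (in the order of time). -/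
def words : List (List ℕ) :=
  [[1, 1, 1, 1, 1, 1, 1, 0],
    [1, 1, 0, 0, 0, 0, 0, 0],
    [1, 1, 0, 0, 0, 0, 0, 0, 0, 0],
    [1, 1, 1, 1, 1, 1, 1, 1, 0, 0],
    [1, 0, 0, 0, 0, 0, 0, 0, 0, 0, 0],
    [1, 0, 1, 1, 0, 0, 0, 0, 0, 0, 0],
    [1, 1, 0, 0, 0, 0, 0, 0, 0, 0, 0],
    [1, 1, 1, 1, 0, 0, 0, 0, 0, 0, 0],
    [1, 1, 1, 1, 1, 1, 1, 1, 0, 1, 0],
    [1, 0, 0, 0, 0, 0, 0, 0, 0, 0, 0, 0],
    [1, 0, 1, 0, 0, 0, 0, 0, 0, 0, 0, 0],
    [1, 0, 1, 1, 1, 0, 0, 0, 0, 0, 0, 0],
    [1, 1, 0, 0, 0, 0, 0, 0, 0, 0, 0, 0],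
    [1, 1, 1, 1, 0, 0, 0, 0, 0, 0, 0, 0]]

theorem words_eq : words = Pool.Agent.R30B.H60.words.map (List.map Bool.toNat) := rfl

/-- Let `c` be a row with the leftmost black cell `l` (for instance the single black cell, or any
finite nonzero seed), and let column `i` of its Rule 30 diagram have the period `p` from the time
`N` on.
(a) A run of `n ≥ 9` ones at times `≥ N` satisfies `n + 4 ⌊(n - 2) / 7⌋ < p`.
(b) For every `r` there is `S`, which depends only on `r`, such that a run of `n ≥ S` zeros at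
times `≥ N` satisfies `n + r < p`.
(c) Covering version on a window: let the column have the period `p` for `T₀ ≤ t < M`, and for every
zero of the column at a time `T ≤ t < M` let there be a run of `n ≥ 9` ones which starts at a time
`≥ T₀` and ends before `t`, such that `t` comes less than `4 ⌊(n - 2) / 7⌋` steps after the end of the
run, or such that the column is zero at all times from the end of the run to `t`.  Then
`M ≤ i - l + 2 T + p`.
(d) From no time `N` on is the column the repetition of one of the fourteen words of the list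
`words`, started at any letter `φ` of the word. -/
theorem result :
    (∀ (c : ℤ → Bool) (l : ℤ), (∀ i, i < l → c i = false) → c l = true →
      ∀ (i : ℤ) (p N : ℕ), 0 < p → (∀ t, N ≤ t → cell c (t + p) i = cell c t i) →
      ∀ s n : ℕ, N ≤ s → 9 ≤ n → (∀ q, s ≤ q → q < s + n → cell c q i = true) →
        n + 4 * ((n - 2) / 7) < p) ∧
    (∀ r : ℕ, ∃ S : ℕ, ∀ (c : ℤ → Bool) (l : ℤ), (∀ i, i < l → c i = false) → c l = true →
      ∀ (i : ℤ) (p N : ℕ), 0 < p → (∀ t, N ≤ t → cell c (t + p) i = cell c t i) →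
      ∀ s n : ℕ, N ≤ s → S ≤ n → (∀ q, s ≤ q → q < s + n → cell c q i = false) → n + r < p) ∧
    (∀ (c : ℤ → Bool) (l : ℤ), (∀ i, i < l → c i = false) → c l = true →
      ∀ (i : ℤ) (p T₀ T M : ℕ), 0 < p → T₀ ≤ T → l + 1 ≤ i + T + p →
      (∀ t, T₀ ≤ t → t < M → cell c (t + p) i = cell c t i) →
      (∀ t, T ≤ t → t < M → cell c t i = false → ∃ s n : ℕ, T₀ ≤ s ∧ 9 ≤ n ∧ s + n ≤ t ∧
        (t < s + n + 4 * ((n - 2) / 7) ∨ ∀ q, s + n ≤ q → q ≤ t → cell c q i = false) ∧
        ∀ q, s ≤ q → q < s + n → cell c q i = true) →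
      (M : ℤ) ≤ i - l + 2 * T + p) ∧
    (∀ (c : ℤ → Bool) (l : ℤ), (∀ i, i < l → c i = false) → c l = true →
      ∀ (i : ℤ) (w : List ℕ), w ∈ words → ∀ N φ : ℕ,
        ¬ ∀ t, N ≤ t → (cell c t i).toNat = w.getD ((t + φ) % w.length) 0) := by
  refine ⟨fun c l h0 h1 i p N hp hper s n hs hn hrun =>
    Pool.Agent.R30B.All.run_ c l h0 h1 i p N s n hp hper hs hn hrun, fun r => ?_,
    Pool.Agent.R30B.H37.apr_, ?_⟩
  · obtain ⟨S, hS⟩ := Pool.Agent.R30B.All.zro_ r
    refine ⟨S, fun c l h0 h1 i p N hp hper s n hs hn hrun => ?_⟩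
    by_contra hcon
    exact hS c l h0 h1 i p N s n hp hper hs hn (not_lt.1 hcon) hrun
  · intro c l h0 h1 i w hw N φ h
    rw [words_eq] at hw
    obtain ⟨v, hv, rfl⟩ := List.mem_map.1 hw
    refine Pool.Agent.R30B.H60.no_word c l h0 h1 i v hv N φ fun t ht => ?_
    have inj : ∀ x y : Bool, x.toNat = y.toNat → x = y := by decide
    apply inj
    have h2 := h t ht
    rw [List.length_map] at h2
    rw [h2]
    exact List.getD_map (f := Bool.toNat) (d := false) ..

end Pool.Agent.Results.MP_3953f1_lc.LongRuns
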