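import Pool.Agent.Helper21_R30.Basic

/-!
Rule 30: at most one column of the space-time diagram of a row with a leftmost black cell (for
instance of a finite nonzero seed) is eventually periodic, with a quantitative form.
-/

set_option autoImplicit false

namespace Pool.Agent.Results.MP_3953f1_lc.OnePeriodicColumn

open Pool.Agent.H21R30

/-- Let `c` be a row with leftmost black cell `l` (for instance any finite nonzero seed).
At most one column of the Rule 30 diagram of `c` is eventually periodic; quantitatively, for all
columns `i`, `i + w` (`w ≥ 1`), all `p ≥ 1` and all `T` one of the two columns violates the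
period `p` at some time `t` with `T ≤ t ≤ 2 T + 2 ^ (w + 1) p + 3 |i - l|`. -/
theorem result (c : ℤ → Bool) (l : ℤ) (h0 : ∀ i, i < l → c i = false) (h1 : c l = true) :
    (∀ i j : ℤ, EvPeriodic (fun t => cell c t i) → EvPeriodic (fun t => cell c t j) → i = j) ∧
    (∀ (i : ℤ) (w T p : ℕ), 1 ≤ w → 1 ≤ p →
      ∃ t, T ≤ t ∧ t ≤ 2 * T + 2 ^ (w + 1) * p + 3 * (i - l).natAbs ∧
        (cell c (t + p) i ≠ cell c t i ∨ cell c (t + p) (i + w) ≠ cell c t (i + w))) := by
  refine ⟨fun i j hi hj => ?_, fun i w T p hw hp => window c l h0 h1 i w hw T p hp⟩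
  rcases lt_trichotomy i j with h | h | h
  · exact (ev_of_two c l h0 h1 i j h hi hj).elim
  · exact h
  · exact (ev_of_two c l h0 h1 j i h hj hi).elim

end Pool.Agent.Results.MP_3953f1_lc.OnePeriodicColumn
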