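import Pool.Agent.Helper16_R30C.Main

/-!
Rule 30: there is an absolute constant `L` such that every eventually periodic column of the
diagram of a row with a leftmost black cell (for instance of a finite nonzero seed) contains, in
its periodic part, a run of fewer than `L` zeros which is followed by a run of at most eight ones.
-/

set_option autoImplicit false

namespace Pool.Agent.Results.MP_3953f1_lc.ShortBlock

open Pool.Agent.H21R30

/-- There is `L` such that for every row `c` with a leftmost black cell `l` (for instance the single
black cell, or any finite nonzero seed) and every column `i` of its Rule 30 diagram which has a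
period `p` from a time `N` on, there are, after every time `T`, a maximal run of `z < L` zeros and
directly after it a maximal run of `m ≤ 8` ones in column `i`. -/
theorem result :
    ∃ L : ℕ, ∀ (c : ℤ → Bool) (l : ℤ), (∀ i, i < l → c i = false) → c l = true →
      ∀ (i : ℤ) (p N : ℕ), 0 < p → (∀ t, N ≤ t → cell c (t + p) i = cell c t i) →
        ∀ T : ℕ, ∃ t z m : ℕ, T ≤ t ∧ 1 ≤ z ∧ z < L ∧ 1 ≤ m ∧ m ≤ 8 ∧ cell c t i = true ∧
          (∀ q, t < q → q ≤ t + z → cell c q i = false) ∧
          (∀ q, t + z < q → q ≤ t + z + m → cell c q i = true) ∧
          cell c (t + z + m + 1) i = false :=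
  Pool.Agent.H16R30C.short_block

end Pool.Agent.Results.MP_3953f1_lc.ShortBlock
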